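import Mathlib
import Pool.Agent.Lib.MP_355270_an.CB.Main
import Pool.Agent.Lib.MP_355270_an.StepA
import Pool.Agent.Lib.MP_355270_an.Converse

open Filter Topology
open scoped ENNReal

namespace Pool.Agent.Results.MP_9bdedc_an.NoPiOneRenorming

/-- `u` is a `π`-basis of `E`: the `u n` are bounded linear idempotents of finite rank, their
ranges are increasing and `u n x → x` for every `x`. -/
structure IsPiBasis (𝕜 : Type) [RCLike 𝕜] {E : Type} [NormedAddCommGroup E] [NormedSpace 𝕜 E]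
    (u : ℕ → E →L[𝕜] E) : Prop where
  idempotent : ∀ n x, u n (u n x) = u n x
  finite : ∀ n, FiniteDimensional 𝕜 (u n).toLinearMap.range
  nested : ∀ m n, m ≤ n → (u m).toLinearMap.range ≤ (u n).toLinearMap.range
  tendsto : ∀ x, Tendsto (fun n => u n x) atTop (𝓝 x)

/-- `N` is a norm on `E` equivalent to the given one: `c ‖x‖ ≤ N x ≤ C ‖x‖` with `0 < c`. -/
def IsEquivalentNorm {𝕜 : Type} [RCLike 𝕜] {E : Type} [NormedAddCommGroup E] [NormedSpace 𝕜 E]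
    (N : Seminorm 𝕜 E) : Prop :=
  ∃ c C : ℝ, 0 < c ∧ ∀ x, c * ‖x‖ ≤ N x ∧ N x ≤ C * ‖x‖

/-- For a norm `N` equivalent to the given one: `(E, N)` has a `π_1`-basis, i.e. a `π`-basis all of
whose operators have norm at most `1` with respect to `N`. -/
def HasPiOneBasis {𝕜 : Type} [RCLike 𝕜] {E : Type} [NormedAddCommGroup E] [NormedSpace 𝕜 E]
    (N : Seminorm 𝕜 E) : Prop :=
  ∃ u : ℕ → E →L[𝕜] E, IsPiBasis 𝕜 u ∧ ∀ n x, N (u n x) ≤ N x

/-- **Negative answer.** Over `𝕜 = ℝ` and over `𝕜 = ℂ` there is a Banach space `E` which has a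
`π`-basis, but does not have a `π_1`-basis with respect to any norm equivalent to the given one. -/
theorem result (𝕜 : Type) [RCLike 𝕜] :
    ∃ (E : Type) (_ : NormedAddCommGroup E) (_ : NormedSpace 𝕜 E), CompleteSpace E ∧
      (∃ u : ℕ → E →L[𝕜] E, IsPiBasis 𝕜 u) ∧
      ∀ N : Seminorm 𝕜 E, IsEquivalentNorm N → ¬ HasPiOneBasis N := by
  obtain ⟨X, _, _, _, ⟨v, hv1, hv2⟩, hno⟩ := Pool.Agent.Lib.MP_355270_an.CB.q_finalK 𝕜
  obtain ⟨V, w, K, h1, h2, h3, h4, h5, h6⟩ := Pool.Agent.Lib.MP_355270_an.normalize v hv1 hv2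
  haveI : ∀ n, FiniteDimensional 𝕜 (V (n + 1)) := fun n => h1 (n + 1)
  haveI : ∀ n, CompleteSpace (V (n + 1)) := fun n => FiniteDimensional.complete 𝕜 (V (n + 1))
  obtain ⟨u, hu1, hu2, hu3, hu4⟩ :=
    Pool.Agent.Lib.MP_355270_an.CB.q_piBasis 𝕜 X V w K h1 h2 h3 h4 h5 h6
  haveI : Fact ((1 : ℝ≥0∞) ≤ 2) := ⟨by norm_num⟩
  have hnoE : ¬ Pool.Agent.Lib.MP_355270_an.CB.HasCAB 𝕜 (X × lp (fun n => ↥(V (n + 1))) 2) := by
    rintro ⟨T, t1, t2, t3⟩
    exact hno (Pool.Agent.Lib.MP_355270_an.converse (p := 2) (by norm_num) (by norm_num) T t1 t2 t3)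
  refine ⟨X × lp (fun n => ↥(V (n + 1))) 2, inferInstance, inferInstance, inferInstance,
    ⟨u, ⟨hu1, hu2, hu3, hu4⟩⟩, ?_⟩
  rintro N ⟨c, C, hc, hN⟩ ⟨u', hu', hle⟩
  exact hnoE (Pool.Agent.Lib.MP_355270_an.CB.q_piOne 𝕜 _ N c C hc (fun x => (hN x).1)
    (fun x => (hN x).2) u' ⟨hu'.idempotent, hu'.finite, hu'.nested, hu'.tendsto⟩ hle)

end Pool.Agent.Results.MP_9bdedc_an.NoPiOneRenorming
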